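import Pool.Agent.R286.IA.Stm
import Pool.Agent.R286.IA.Stm2
import Pool.Agent.R286.IA.Uc
import Pool.Agent.R286.IA.Sep
import Pool.Agent.R286.IA.Hits
import Pool.Agent.R286.IA.Seq
import Pool.Agent.R286.IA.LatA
import Pool.Agent.R286.IA.LatB
import Pool.Agent.R286.IA.Fn
import Pool.Agent.R286.IA.Enum
import Pool.Agent.R286.IA.Emb
import Pool.Agent.R286.IA.Ext
import Pool.Agent.R286.IA.Build
import Pool.Agent.R286.IA.Kset
import Pool.Agent.R286.IA.Near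
import Pool.Agent.R286.IA.Hitn
import Pool.Agent.R286.IA.Lim
import Pool.Agent.R286.IA.Contr
import Pool.Agent.R286.IA.Peano
import Pool.Agent.R286.IA.Pos1
import Pool.Agent.R286.IA.Pos2
import Pool.Agent.R286.IA.Lp1
import Pool.Agent.R286.IA.Lp2
import Pool.Agent.R286.IA.Lp3
import Pool.Agent.R286.IA.Neg

/-!
# MP_4265c1_an: isometric approximation of operators from uniformly smooth spaces into `C[0,1]`

For a uniformly smooth Banach space `X` (real or complex), `B(X, C[0,1])` has the isometric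
approximation property if and only if `X` is finite dimensional or not separable. In particular it
fails for `X = L^p[0,1]`, `1 < p < ∞`.
-/

set_option autoImplicit false

open Filter Topology MeasureTheory

namespace Pool.Agent.Results.MP_4265c1_an.IsometricApproximation

section defs

variable (𝕜 : Type*) [RCLike 𝕜] (X : Type*) [NormedAddCommGroup X] [NormedSpace 𝕜 X]

/-- `X` is uniformly smooth, i.e. `ρ_X(t)/t → 0` as `t → 0+`, where `ρ_X(t)` is the supremum of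
`(‖x + t y‖ + ‖x - t y‖)/2 - 1` over unit vectors `x, y`. -/
def UnifSmooth : Prop := ∀ η : ℝ, 0 < η → ∃ t₀ : ℝ, 0 < t₀ ∧ ∀ t : ℝ, 0 < t → t ≤ t₀ →
  ∀ x y : X, ‖x‖ = 1 → ‖y‖ = 1 → (‖x + (t : 𝕜) • y‖ + ‖x - (t : 𝕜) • y‖) / 2 - 1 ≤ η * t

variable {𝕜 X}

/-- `ε`-isometric operators `X → C[0,1]`; `0`-isometric means isometric -/
def EpsIsom (ε : ℝ) (T : X →L[𝕜] C(unitInterval, 𝕜)) : Prop :=
  ∀ x, (1 - ε) * ‖x‖ ≤ ‖T x‖ ∧ ‖T x‖ ≤ (1 + ε) * ‖x‖

variable (𝕜 X)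

/-- the isometric approximation property of `B(X, C[0,1])` -/
def IAP : Prop := ∃ δ : ℝ → ℝ, (∀ ε, 0 < ε → ε < 1 → 0 ≤ δ ε) ∧ Tendsto δ (𝓝[>] 0) (𝓝 0) ∧
  ∀ ε, 0 < ε → ε < 1 → ∀ T : X →L[𝕜] C(unitInterval, 𝕜), EpsIsom ε T →
    ∃ V : X →L[𝕜] C(unitInterval, 𝕜), EpsIsom 0 V ∧ ‖T - V‖ ≤ δ ε

end defs

theorem neg_iap {𝕜 : Type*} [RCLike 𝕜] {X : Type*} [NormedAddCommGroup X] [NormedSpace 𝕜 X] :
    R286.IA.StNeg 𝕜 X := by
  have hH := R286.IA.hits (𝕜 := 𝕜) (X := X)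
  intro hUS
  have hall := R286.IA.uc (𝕜 := 𝕜) (X := X) hUS
  exact R286.IA.neg R286.IA.uc R286.IA.sep R286.IA.seq4 (R286.IA.lat_of R286.IA.latA R286.IA.latB)
    R286.IA.fn R286.IA.enum (R286.IA.build R286.IA.emb R286.IA.ext R286.IA.seq1)
    (R286.IA.kset R286.IA.seq2 R286.IA.seq3 R286.IA.seq4)
    (R286.IA.hitn (hH hall) (R286.IA.near R286.IA.seq4))
    (R286.IA.lim R286.IA.seq1 R286.IA.seq2 R286.IA.seq3 R286.IA.seq4)
    (R286.IA.contr R286.IA.seq1 R286.IA.seq2) hUS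

/-- Over the field `𝕜` (`ℝ` or `ℂ`): for every uniformly smooth Banach space `X`, `B(X, C[0,1])` has
the isometric approximation property if and only if `X` is finite dimensional or not separable; and
`B(L^p[0,1], C[0,1])` does not have it for any `1 < p < ∞`. -/
theorem result (𝕜 : Type) [RCLike 𝕜] :
    (∀ (X : Type*) [NormedAddCommGroup X] [NormedSpace 𝕜 X] [CompleteSpace X], UnifSmooth 𝕜 X →
      (IAP 𝕜 X ↔ FiniteDimensional 𝕜 X ∨ ¬ TopologicalSpace.SeparableSpace X)) ∧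
    ∀ (p : ENNReal) [Fact (1 ≤ p)], 1 < p → p < ⊤ →
      ¬ IAP 𝕜 (Lp 𝕜 p (volume : Measure unitInterval)) := by
  refine ⟨fun X _ _ _ hUS => ⟨fun h => ?_, fun h => ?_⟩, fun p _ hp hp' => ?_⟩
  · by_contra hcon
    push Not at hcon
    exact neg_iap hUS hcon.2 hcon.1 h
  · rcases h with h | h
    · exact R286.IA.pos2 R286.IA.peano (R286.IA.pos1 R286.IA.uc R286.IA.peano) h hUS
    · exact R286.IA.nonsep h
  · obtain ⟨h1, h2⟩ := R286.IA.lp3 (𝕜 := 𝕜) p hp hp'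
    exact neg_iap (R286.IA.lp2 R286.IA.lp1 p hp hp') h2 h1

end Pool.Agent.Results.MP_4265c1_an.IsometricApproximation
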